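import Pool.Agent.Y5.S2.Stm

/-! # The abstract well-posedness gives the concrete one (job for helper5) -/

open Set Filter Topology

set_option autoImplicit false

namespace Pool.Agent.Y689.S2

open Pool.Agent.Y5 Pool.Agent.Y5.D Pool.Agent.Y5.E Pool.Agent.Y5.F Pool.Agent.Y5.S2
open Pool.Agent.Y6.N (lin)

open Classical in
/-- the matrix of the rotations -/
noncomputable def Am {J : Type} (Q κ : ℝ) (L : ℕ → ℝ) (g : J → ℕ) (σ : J → J) (τ : J → ℝ)
    (i b : Ix J) : ℝ :=
  match i, b with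
  | Sum.inr j, Sum.inr j' => if j' = σ j then Om Q κ L (g j / 2) * τ j else 0
  | _, _ => 0

variable {J : Type} {g : J → ℕ} {σ : J → J} {τ : J → ℝ} {Q κ : ℝ} {L : ℕ → ℝ}

lemma Am_anti (h : Rot2 g σ τ) (i b : Ix J) :
    Am Q κ L g σ τ b i = -Am Q κ L g σ τ i b := by
  rcases i with i | i <;> rcases b with b | b
  · simp [Am]
  · simp [Am]
  · simp [Am]
  · by_cases hb : b = σ i
    · subst hb
      have e1 : Am Q κ L g σ τ (Sum.inr i) (Sum.inr (σ i)) = Om Q κ L (g i / 2) * τ i := by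
        simp [Am]
      have e2 : Am Q κ L g σ τ (Sum.inr (σ i)) (Sum.inr i) =
          Om Q κ L (g (σ i) / 2) * τ (σ i) := by
        simp [Am, h.inv]
      rw [e1, e2, h.grp, h.skew]
      ring
    · have hi : i ≠ σ b := by
        intro hi
        exact hb (by rw [hi, h.inv])
      simp [Am, hb, hi]

lemma Am_blk (h : Rot2 g σ τ) (i b : Ix J) (hne : Am Q κ L g σ τ i b ≠ 0) :
    gr g i / 2 = gr g b / 2 := by
  rcases i with i | i <;> rcases b with b | b
  · simp [Am] at hne
  · simp [Am] at hne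
  · simp [Am] at hne
  · by_cases hb : b = σ i
    · subst hb
      simp only [gr]
      exact (h.grp i).symm
    · simp [Am, hb] at hne

lemma lin_Am (z : Ix J → ℝ) (i : Ix J) :
    ∑' b, Am Q κ L g σ τ i b * z b = Az Q κ L g σ τ z i := by
  rcases i with i | i
  · have : ∀ b : Ix J, Am Q κ L g σ τ (Sum.inl i) b * z b = 0 := by
      intro b
      rcases b with b | b <;> simp [Am]
    simp only [this, tsum_zero, Az]
  · rw [tsum_eq_single (Sum.inr (σ i) : Ix J)]
    · simp [Am, Az]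
    · intro b hb
      rcases b with b | b
      · simp [Am]
      · have : b ≠ σ i := fun h => hb (by rw [h])
        simp [Am, this]

lemma summ_Am (z : Ix J → ℝ) (i : Ix J) :
    Summable (fun b => Am Q κ L g σ τ i b * z b) := by
  rcases i with i | i
  · have : ∀ b : Ix J, Am Q κ L g σ τ (Sum.inl i) b * z b = 0 := by
      intro b
      rcases b with b | b <;> simp [Am]
    simp only [this]
    exact summable_zero
  · refine summable_of_ne_finset_zero (s := {(Sum.inr (σ i) : Ix J)}) ?_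
    intro b hb
    rw [Finset.mem_singleton] at hb
    rcases b with b | b
    · simp [Am]
    · have : b ≠ σ i := fun h => hb (by rw [h])
      simp [Am, this]

/-- the sum of an antisymmetric form -/
lemma anti_sum {I : Type} (S : Finset I) (X : I → I → ℝ) (hX : ∀ i j, X j i = -X i j)
    (z : I → ℝ) : ∑ p ∈ S ×ˢ S, X p.1 p.2 * z p.1 * z p.2 = 0 := by
  rw [Finset.sum_product]
  have h : ∑ i ∈ S, ∑ j ∈ S, X i j * z i * z j = -∑ i ∈ S, ∑ j ∈ S, X i j * z i * z j := by
    conv_lhs => rw [Finset.sum_comm]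
    rw [← Finset.sum_neg_distrib]
    refine Finset.sum_congr rfl fun i _ => ?_
    rw [← Finset.sum_neg_distrib]
    refine Finset.sum_congr rfl fun j _ => ?_
    rw [hX i j]
    ring
  linarith

/-! ### the weights -/

section W

variable {μ lam Λ M : ℝ} {C ℓ : ℕ → ℝ} {B : ℕ → ℕ → ℝ}

lemma lam1 (h : Sq6 κ μ lam Λ M L C ℓ B) : 1 ≤ lam := by
  have h1 := h.μ_eq
  have h2 := h.μ_big
  have h3 := h.κ1
  have h4 := h.κ0
  by_contra hc
  push Not at hc
  have : κ * lam ≤ 1 := by
    rcases le_or_gt lam 0 with h0 | h0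
    · nlinarith
    · nlinarith
  linarith

lemma L1 (h : Sq6 κ μ lam Λ M L C ℓ B) (n : ℕ) : 1 ≤ L n := by
  induction n with
  | zero => exact h.L0
  | succ n ih =>
    rw [h.L_succ]
    have := lam1 h
    nlinarith

lemma L_two (h : Sq6 κ μ lam Λ M L C ℓ B) (m : ℕ) :
    L (2 * (m / 2)) ≤ L m ∧ L m ≤ lam * L (2 * (m / 2)) := by
  have h1 := lam1 h
  have h2 := L1 h (2 * (m / 2))
  rcases Nat.mod_two_eq_zero_or_one m with hm | hm
  · have e : 2 * (m / 2) = m := by omega
    rw [e] at h2 ⊢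
    exact ⟨le_refl _, by nlinarith⟩
  · have e : m = 2 * (m / 2) + 1 := by omega
    have e2 : L m = lam * L (2 * (m / 2)) := by
      conv_lhs => rw [e]
      rw [h.L_succ]
    rw [e2]
    exact ⟨by nlinarith, le_refl _⟩

lemma κL (h : Sq6 κ μ lam Λ M L C ℓ B) (m : ℕ) : κ ^ m * L m ≤ L m := by
  have h1 : κ ^ m ≤ 1 := pow_le_one₀ h.κ0.le h.κ1
  have h2 := L1 h m
  have h3 : 0 ≤ κ ^ m := pow_nonneg h.κ0.le m
  nlinarith

lemma κL0 (h : Sq6 κ μ lam Λ M L C ℓ B) (m : ℕ) : 0 ≤ κ ^ m * L m :=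
  mul_nonneg (pow_nonneg h.κ0.le m) (by linarith [L1 h m])

lemma κL_succ (h : Sq6 κ μ lam Λ M L C ℓ B) (m : ℕ) : κ ^ m * L m ≤ κ ^ (m + 1) * L (m + 1) := by
  have h1 := κL0 h m
  have h2 : κ ^ (m + 1) * L (m + 1) = μ * (κ ^ m * L m) := by
    rw [h.L_succ, h.μ_eq]
    ring
  rw [h2]
  have := h.μ_big
  nlinarith

end W

/-! ### blocks -/

lemma blk_fin (hg : ∀ m, {j | g j = m}.Finite) (n : ℕ) : {i : Ix J | gr g i / 2 = n}.Finite := by
  have h : {i : Ix J | gr g i / 2 = n} ⊆ (Sum.inl '' {m : ℕ | m / 2 = n}) ∪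
      (Sum.inr '' ({j | g j = 2 * n} ∪ {j | g j = 2 * n + 1})) := by
    intro i hi
    rcases i with i | i
    · left
      exact ⟨i, hi, rfl⟩
    · right
      refine ⟨i, ?_, rfl⟩
      have hi' : g i / 2 = n := hi
      have : g i = 2 * n ∨ g i = 2 * n + 1 := by omega
      exact this
  refine Set.Finite.subset (Set.Finite.union ?_ ?_) h
  · refine Set.Finite.image _ (Set.Finite.subset (Set.finite_le_nat (2 * n + 1)) ?_)
    intro m hm
    have hm' : m / 2 = n := hm
    show m ≤ 2 * n + 1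
    omega
  · exact Set.Finite.image _ ((hg _).union (hg _))

lemma tsum_blk {I : Type} (S : Finset I) (X : I → I → ℝ) (z : I → ℝ) (hz : ∀ i, i ∉ S → z i = 0) :
    ∑' p : I × I, X p.1 p.2 * z p.1 * z p.2 = ∑ p ∈ S ×ˢ S, X p.1 p.2 * z p.1 * z p.2 := by
  refine tsum_eq_sum ?_
  intro p hp
  rw [Finset.mem_product, not_and_or] at hp
  rcases hp with hp | hp
  · rw [hz _ hp]
    ring
  · rw [hz _ hp]
    ring

section D

variable {a D₁ : ℝ} {ℓ : ℕ → ℝ} {D : Ix J → Ix J → ℝ}

open Classical in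
lemma D_size (hd : Dis2 g a D₁ κ L ℓ D) (i b : Ix J) :
    |D i b| ≤ |D₁| * |κ ^ (gr g i) * L (gr g i)| := by
  by_cases h0 : D i b = 0
  · rw [h0, abs_zero]
    positivity
  have hg := hd.blk i b h0
  have h := hd.up (gr g i) (fun x => if x = i then 1 else 0) (fun x => if x = b then 1 else 0)
    (by
      intro x hx
      have : x ≠ i := fun h => hx (by rw [h])
      simp [this])
    (by
      intro x hx
      have : x ≠ b := fun h => hx (by rw [h, hg])
      simp [this])
  have e1 : ∑' p : Ix J × Ix J, D p.1 p.2 * (if p.1 = i then (1 : ℝ) else 0) *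
      (if p.2 = b then (1 : ℝ) else 0) = D i b := by
    rw [tsum_eq_single (i, b)]
    · simp
    · intro p hp
      by_cases h1 : p.1 = i
      · have h2 : p.2 ≠ b := fun h2 => hp (Prod.ext h1 h2)
        simp [h2]
      · simp [h1]
  have e2 : ∀ y : Ix J, ∑' x : Ix J, (if x = y then (1 : ℝ) else 0) ^ 2 = 1 := by
    intro y
    rw [tsum_eq_single y]
    · simp
    · intro x hx
      simp [hx]
  rw [e1, e2, e2, Real.sqrt_one, mul_one, mul_one] at h
  refine h.trans ?_
  rw [← abs_mul]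
  exact le_abs_self _

open Classical in
lemma D_low (hd : Dis2 g a D₁ κ L ℓ D) (n : ℕ) (S : Finset (Ix J))
    (hS : ∀ i, i ∈ S ↔ gr g i / 2 = n) (hκ0 : 0 ≤ a * (κ ^ (2 * n) * L (2 * n)))
    (hκ : κ ^ (2 * n) * L (2 * n) ≤ κ ^ (2 * n + 1) * L (2 * n + 1)) (ha : 0 ≤ a)
    (z : Ix J → ℝ) :
    a * (κ ^ (2 * n) * L (2 * n)) * ∑ i ∈ S, z i ^ 2 ≤
      ∑ p ∈ S ×ˢ S, D p.1 p.2 * z p.1 * z p.2 := by
  set α : Ix J → ℝ := fun i => if gr g i = 2 * n then z i else 0 with hα
  set β : Ix J → ℝ := fun i => if gr g i = 2 * n + 1 then z i else 0 with hβ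
  have hαS : ∀ i, i ∉ S → α i = 0 := by
    intro i hi
    have : gr g i ≠ 2 * n := by
      intro h
      apply hi
      rw [hS]
      omega
    simp [hα, this]
  have hβS : ∀ i, i ∉ S → β i = 0 := by
    intro i hi
    have : gr g i ≠ 2 * n + 1 := by
      intro h
      apply hi
      rw [hS]
      omega
    simp [hβ, this]
  have h1 := hd.low (2 * n) α (fun i hi => by simp [hα, hi])
  have h2 := hd.low (2 * n + 1) β (fun i hi => by simp [hβ, hi])
  rw [tsum_blk S D α hαS, tsum_eq_sum (s := S) (fun i hi => by rw [hαS i hi]; ring)] at h1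
  rw [tsum_blk S D β hβS, tsum_eq_sum (s := S) (fun i hi => by rw [hβS i hi]; ring)] at h2
  have hsq : ∑ i ∈ S, z i ^ 2 = ∑ i ∈ S, α i ^ 2 + ∑ i ∈ S, β i ^ 2 := by
    rw [← Finset.sum_add_distrib]
    refine Finset.sum_congr rfl fun i hi => ?_
    have hi' := (hS i).1 hi
    have : gr g i = 2 * n ∨ gr g i = 2 * n + 1 := by omega
    rcases this with h | h
    · simp [hα, hβ, h]
    · simp [hα, hβ, h]
  have hDs : ∑ p ∈ S ×ˢ S, D p.1 p.2 * z p.1 * z p.2 =
      ∑ p ∈ S ×ˢ S, D p.1 p.2 * α p.1 * α p.2 + ∑ p ∈ S ×ˢ S, D p.1 p.2 * β p.1 * β p.2 := by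
    rw [← Finset.sum_add_distrib]
    refine Finset.sum_congr rfl fun p hp => ?_
    by_cases h0 : D p.1 p.2 = 0
    · rw [h0]
      ring
    have hg := hd.blk _ _ h0
    rw [Finset.mem_product] at hp
    have hi' := (hS _).1 hp.1
    have : gr g p.1 = 2 * n ∨ gr g p.1 = 2 * n + 1 := by omega
    rcases this with h | h
    · have h' : gr g p.2 = 2 * n := by rw [← hg, h]
      simp [hα, hβ, h, h']
    · have h' : gr g p.2 = 2 * n + 1 := by rw [← hg, h]
      simp [hα, hβ, h, h']
  rw [hsq, hDs, mul_add]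
  refine add_le_add h1 (le_trans ?_ h2)
  exact mul_le_mul_of_nonneg_right (mul_le_mul_of_nonneg_left hκ ha)
    (Finset.sum_nonneg fun i _ => sq_nonneg _)

lemma summ_D (hg : ∀ m, {j | g j = m}.Finite) (hd : Dis2 g a D₁ κ L ℓ D) (z : Ix J → ℝ)
    (i : Ix J) : Summable (fun b => D i b * z b) := by
  refine summable_of_ne_finset_zero (s := (blk_fin (J := J) hg (gr g i / 2)).toFinset) ?_
  intro b hb
  rw [Set.Finite.mem_toFinset] at hb
  by_cases h0 : D i b = 0
  · rw [h0, zero_mul]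
  · exact absurd (by
      have := hd.blk i b h0
      show gr g b / 2 = gr g i / 2
      rw [this]) hb

end D

/-! ### the theorem -/

theorem t_WPC : S_WPC := by
  classical
  intro hW hE J g σ τ κ μ lam Λ M a D₁ Q A L C ℓ B D c hk hs hr hd ha
  have hadm := hE J g κ μ lam Λ M a L C ℓ B c hk hs ha
  have hl1 := lam1 hs
  -- the linear term
  set T : Ix J → Ix J → ℝ := fun i b => Am Q κ L g σ τ i b - D i b with hT
  have hlin : ∀ (z : Ix J → ℝ) (i : Ix J), lin T z i = Az Q κ L g σ τ z i - lin D z i := by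
    intro z i
    unfold lin
    rw [← lin_Am (Q := Q) (κ := κ) (L := L) (g := g) (σ := σ) (τ := τ) z i,
      ← (summ_Am z i).tsum_sub (summ_D hk.fin hd z i)]
    refine tsum_congr fun b => ?_
    rw [hT]
    ring
  have hrB : ∀ i : Ix J, rB L g i ≤ rI L g i ∧ rI L g i ≤ lam * rB L g i := by
    intro i
    exact L_two hs (gr g i)
  have hrB1 : ∀ i : Ix J, 1 ≤ rB L g i := fun i => L1 hs _
  have hblk : Blk T (dB a κ L g) (rB L g) (fun i => gr g i / 2) := by
    refine ⟨fun n => blk_fin hk.fin n, ?_, ?_, ?_, ?_⟩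
    · intro i j hij
      by_cases h : D i j = 0
      · refine Am_blk (Q := Q) (κ := κ) (L := L) hr i j ?_
        intro h'
        apply hij
        rw [hT]
        simp only [h, h', sub_zero]
      · show gr g i / 2 = gr g j / 2
        rw [hd.blk i j h]
    · intro i j hij
      have hij' : gr g i / 2 = gr g j / 2 := hij
      constructor
      · unfold dB
        rw [hij']
      · unfold rB
        rw [hij']
    · refine ⟨|Q| + |D₁| * lam, 1, ?_⟩
      intro i j
      have h1 : |Am Q κ L g σ τ i j| ≤ |Q| * rB L g i := by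
        rcases i with i | i <;> rcases j with j | j
        · simp only [Am, abs_zero]
          exact mul_nonneg (abs_nonneg _) (by linarith [hrB1 (Sum.inl i)])
        · simp only [Am, abs_zero]
          exact mul_nonneg (abs_nonneg _) (by linarith [hrB1 (Sum.inl i)])
        · simp only [Am, abs_zero]
          exact mul_nonneg (abs_nonneg _) (by linarith [hrB1 (Sum.inr i)])
        · by_cases hj : j = σ i
          · have e : Am Q κ L g σ τ (Sum.inr i) (Sum.inr j) = Om Q κ L (g i / 2) * τ i := by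
              simp [Am, hj]
            have hτ : |τ i| = 1 := by
              have := hr.unit i
              have h2 : |τ i| ^ 2 = 1 := by rw [sq_abs, this]
              nlinarith [abs_nonneg (τ i)]
            rw [e, abs_mul, hτ, mul_one]
            unfold Om rB
            rw [abs_mul]
            refine mul_le_mul_of_nonneg_left ?_ (abs_nonneg _)
            rw [abs_of_nonneg (κL0 hs _)]
            exact κL hs _
          · have e : Am Q κ L g σ τ (Sum.inr i) (Sum.inr j) = 0 := by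
              simp [Am, hj]
            rw [e, abs_zero]
            exact mul_nonneg (abs_nonneg _) (by linarith [hrB1 (Sum.inr i)])
      have h2 : |D i j| ≤ |D₁| * (lam * rB L g i) := by
        refine (D_size hd i j).trans (mul_le_mul_of_nonneg_left ?_ (abs_nonneg _))
        rw [abs_of_nonneg (κL0 hs _)]
        exact (κL hs _).trans (hrB i).2
      rw [pow_one]
      calc |T i j| ≤ |Am Q κ L g σ τ i j| + |D i j| := abs_sub _ _
        _ ≤ |Q| * rB L g i + |D₁| * (lam * rB L g i) := add_le_add h1 h2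
        _ = (|Q| + |D₁| * lam) * rB L g i := by ring
    · intro n z hz
      set S : Finset (Ix J) := (blk_fin (J := J) hk.fin n).toFinset with hSd
      have hS : ∀ i, i ∈ S ↔ gr g i / 2 = n := by
        intro i
        rw [hSd, Set.Finite.mem_toFinset]
        rfl
      have hz' : ∀ i, i ∉ S → z i = 0 := fun i hi => hz i (fun h => hi ((hS i).2 h))
      rw [tsum_blk S T z hz', tsum_eq_sum (s := S) (fun i hi => by rw [hz' i hi]; ring)]
      have h1 : ∑ p ∈ S ×ˢ S, T p.1 p.2 * z p.1 * z p.2 =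
          ∑ p ∈ S ×ˢ S, Am Q κ L g σ τ p.1 p.2 * z p.1 * z p.2 -
            ∑ p ∈ S ×ˢ S, D p.1 p.2 * z p.1 * z p.2 := by
        rw [← Finset.sum_sub_distrib]
        refine Finset.sum_congr rfl fun p _ => ?_
        rw [hT]
        ring
      rw [h1, anti_sum S _ (Am_anti hr) z, zero_sub]
      refine neg_le_neg ?_
      have h2 := D_low hd n S hS (mul_nonneg ha.le (κL0 hs _)) (κL_succ hs _) ha.le z
      refine le_trans (le_of_eq ?_) h2
      rw [Finset.mul_sum]
      refine Finset.sum_congr rfl fun i hi => ?_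
      have hi' := (hS i).1 hi
      unfold dB
      rw [hi']
  -- the initial datum
  have hz0 : ∀ k : ℕ, Sk (rB L g) k (fun i : Ix J => if i = Sum.inl 0 then A else 0) := by
    intro k
    refine summable_of_ne_finset_zero (s := {(Sum.inl 0 : Ix J)}) ?_
    intro i hi
    rw [Finset.mem_singleton] at hi
    simp [hi]
  obtain ⟨z, hz, hsol⟩ := hW (Ix J) (fun i => gr g i / 2) T (dB a κ L g) (rB L g) c hadm hblk _ hz0
  -- comparison of the norms
  have hcmp : ∀ (k : ℕ) (y : Ix J → ℝ), Sk (rB L g) k y → Sk (rI L g) k y ∧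
      nk (rI L g) k y ≤ (lam ^ k) ^ 2 * nk (rB L g) k y := by
    intro k y hy
    have hle : ∀ i, (rI L g i ^ k * y i) ^ 2 ≤ (lam ^ k) ^ 2 * (rB L g i ^ k * y i) ^ 2 := by
      intro i
      have h0 : 0 ≤ rI L g i := by linarith [(hrB i).1, hrB1 i]
      have h1 : rI L g i ^ k ≤ lam ^ k * rB L g i ^ k := by
        rw [← mul_pow]
        exact pow_le_pow_left₀ h0 (hrB i).2 k
      have h2 : (rI L g i ^ k) ^ 2 ≤ (lam ^ k * rB L g i ^ k) ^ 2 :=
        pow_le_pow_left₀ (pow_nonneg h0 k) h1 2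
      calc (rI L g i ^ k * y i) ^ 2 = (rI L g i ^ k) ^ 2 * y i ^ 2 := by ring
        _ ≤ (lam ^ k * rB L g i ^ k) ^ 2 * y i ^ 2 :=
          mul_le_mul_of_nonneg_right h2 (sq_nonneg _)
        _ = (lam ^ k) ^ 2 * (rB L g i ^ k * y i) ^ 2 := by ring
    have hs1 : Sk (rI L g) k y :=
      Summable.of_nonneg_of_le (fun i => sq_nonneg _) hle (hy.mul_left _)
    refine ⟨hs1, ?_⟩
    unfold nk
    rw [← tsum_mul_left]
    exact hs1.tsum_le_tsum hle (hy.mul_left _)
  have hcmp2 : ∀ y : Ix J → ℝ, Sk (rI L g) 1 y → nk (rB L g) 1 y ≤ nk (rI L g) 1 y := by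
    intro y hy
    have hle : ∀ i, (rB L g i ^ 1 * y i) ^ 2 ≤ (rI L g i ^ 1 * y i) ^ 2 := by
      intro i
      have h0 : 0 ≤ rB L g i := by linarith [hrB1 i]
      have h2 : (rB L g i ^ 1) ^ 2 ≤ (rI L g i ^ 1) ^ 2 := by
        rw [pow_one, pow_one]
        exact pow_le_pow_left₀ h0 (hrB i).1 2
      calc (rB L g i ^ 1 * y i) ^ 2 = (rB L g i ^ 1) ^ 2 * y i ^ 2 := by ring
        _ ≤ (rI L g i ^ 1) ^ 2 * y i ^ 2 := mul_le_mul_of_nonneg_right h2 (sq_nonneg _)
        _ = (rI L g i ^ 1 * y i) ^ 2 := by ring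
    have hs1 : Summable (fun i => (rB L g i ^ 1 * y i) ^ 2) :=
      Summable.of_nonneg_of_le (fun i => sq_nonneg _) hle hy
    exact hs1.tsum_le_tsum hle hy
  have hconv : ∀ Θ, BSol T (rB L g) c Θ z → NSol2 Q κ L g σ τ D c Θ z := by
    intro Θ h
    refine ⟨?_, ?_⟩
    · intro i t ht
      have := h.deriv i t ht
      rw [hlin] at this
      exact this
    · intro k T' hT'
      obtain ⟨X, hX⟩ := h.rapid k T' hT'
      refine ⟨(lam ^ k) ^ 2 * X, fun t ht => ?_⟩
      obtain ⟨h1, h2⟩ := hX t ht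
      obtain ⟨h3, h4⟩ := hcmp k _ h1
      exact ⟨h3, h4.trans (mul_le_mul_of_nonneg_left h2 (sq_nonneg _))⟩
  refine ⟨z, ⟨?_, ?_, ?_⟩, ?_⟩
  · rw [hz]
    simp
  · intro n
    rw [hz]
    simp
  · intro w
    rw [hz]
    simp
  · rcases hsol with h | ⟨Θ, h0, h1, h2⟩
    · exact Or.inl fun T' => hconv T' (h T')
    · refine Or.inr ⟨Θ, h0, hconv Θ h1, ?_⟩
      rintro ⟨X, hX⟩
      apply h2
      refine ⟨X, fun t ht => ?_⟩
      refine (hcmp2 _ ?_).trans (hX t ht)
      obtain ⟨X', hX'⟩ := (hconv Θ h1).rapid 1 ((t + Θ) / 2) (by linarith [ht.2])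
      exact (hX' t ⟨ht.1, by linarith [ht.2]⟩).1

end Pool.Agent.Y689.S2
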